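import Pool.Agent.H8.AV3.Stmts7
import Pool.Agent.H95.AVR.CNF

/-!
# AV3, stage 3, module PLM: values of a squarefree polynomial divisible by the square of a large
prime are rare (after Poonen)
-/

set_option autoImplicit false

namespace Pool.Agent.H55.AV3C

open Polynomial Matrix Pool.AVR Pool.AV3

section Basic

variable {F : Type} [Field F]

/-- The coefficientwise derivative. -/
noncomputable def DT (D : F[X][X]) : F[X][X] :=
  ∑ i ∈ Finset.range (D.natDegree + 1), monomial i (derivative (D.coeff i))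

theorem DT_coeff (D : F[X][X]) (i : ℕ) : (DT D).coeff i = derivative (D.coeff i) := by
  unfold DT
  rw [finsetSum_coeff]
  simp only [coeff_monomial]
  rw [Finset.sum_ite_eq']
  split_ifs with h
  · rfl
  · rw [coeff_eq_zero_of_natDegree_lt, derivative_zero]
    rw [Finset.mem_range] at h
    omega

theorem DT_natDegree (D : F[X][X]) : (DT D).natDegree ≤ D.natDegree := by
  rw [natDegree_le_iff_coeff_eq_zero]
  intro i hi
  rw [DT_coeff, coeff_eq_zero_of_natDegree_lt hi, derivative_zero]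

theorem DT_eval (D : F[X][X]) (w : F[X]) :
    derivative (D.eval w) = (DT D).eval w + derivative w * (derivative D).eval w := by
  have h1 : D.eval w = ∑ i ∈ Finset.range (D.natDegree + 1), D.coeff i * w ^ i :=
    eval_eq_sum_range w
  have h2 : (DT D).eval w =
      ∑ i ∈ Finset.range (D.natDegree + 1), derivative (D.coeff i) * w ^ i := by
    unfold DT
    rw [eval_finsetSum]
    refine Finset.sum_congr rfl fun i _ => ?_
    rw [eval_monomial]
  have h3 : (derivative D).eval w =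
      ∑ i ∈ Finset.range (D.natDegree + 1), D.coeff i * (i : F[X]) * w ^ (i - 1) := by
    rw [derivative_eval, sum_over_range _ (fun n => by ring)]
  rw [h1, h2, h3, derivative_sum, Finset.mul_sum, ← Finset.sum_add_distrib]
  refine Finset.sum_congr rfl fun i _ => ?_
  rw [derivative_mul, derivative_pow]
  simp only [map_natCast]
  ring

/-- The polynomial `D_t + z D_w`. -/
noncomputable def GZ (D : F[X][X]) (z : F[X]) : F[X][X] := DT D + C z * derivative D

theorem GZ_natDegree (D : F[X][X]) (z : F[X]) : (GZ D z).natDegree ≤ D.natDegree := by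
  unfold GZ
  refine natDegree_add_le_of_degree_le (DT_natDegree D) ?_
  refine natDegree_mul_le.trans ?_
  rw [natDegree_C, zero_add]
  exact (natDegree_derivative_le D).trans (Nat.sub_le _ _)

theorem GZ_coeff_natDegree (D : F[X][X]) (z : F[X]) (a b : ℕ)
    (hD : ∀ i, (D.coeff i).natDegree ≤ a) (hz : z.natDegree ≤ b) (i : ℕ) :
    ((GZ D z).coeff i).natDegree ≤ a + b := by
  unfold GZ
  rw [coeff_add, DT_coeff, coeff_C_mul, coeff_derivative]
  refine natDegree_add_le_of_degree_le ?_ ?_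
  · refine (natDegree_derivative_le _).trans ?_
    have := hD i
    omega
  · refine natDegree_mul_le.trans ?_
    have h1 : (D.coeff (i + 1) * ((i : F[X]) + 1)).natDegree ≤ a := by
      have h2 : ((i : F[X]) + 1) = C ((i : F) + 1) := by simp
      rw [h2]
      exact (natDegree_mul_C_le _ _).trans (hD _)
    omega

theorem GZ_eval_dvd (D : F[X][X]) (w P : F[X]) (h : P ^ 2 ∣ D.eval w) :
    P ∣ (GZ D (derivative w)).eval w := by
  unfold GZ
  rw [eval_add, eval_mul, eval_C, ← DT_eval]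
  obtain ⟨u, hu⟩ := h
  rw [hu, derivative_mul, derivative_pow]
  refine dvd_add ?_ ?_
  · refine Dvd.dvd.mul_right ?_ _
    refine Dvd.dvd.mul_right ?_ _
    refine Dvd.dvd.mul_left ?_ _
    simp
  · exact (dvd_pow_self P two_ne_zero).mul_right _

theorem det_natDegree_le (N B : ℕ) (M : Matrix (Fin N) (Fin N) F[X])
    (h : ∀ i j, (M i j).natDegree ≤ B) : M.det.natDegree ≤ N * B := by
  rw [Matrix.det_apply]
  refine natDegree_sum_le_of_forall_le _ _ fun σ _ => ?_
  refine (natDegree_smul_le _ _).trans ?_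
  refine (natDegree_prod_le _ _).trans ?_
  refine (Finset.sum_le_card_nsmul _ _ B fun i _ => h _ _).trans ?_
  rw [Finset.card_univ, Fintype.card_fin, smul_eq_mul]

theorem resultant_natDegree_le (D G : F[X][X]) (m k B : ℕ)
    (hD : ∀ i, (D.coeff i).natDegree ≤ B) (hG : ∀ i, (G.coeff i).natDegree ≤ B) :
    (resultant D G m k).natDegree ≤ (m + k) * B := by
  unfold resultant
  refine det_natDegree_le _ _ _ fun i j => ?_
  unfold sylvester
  rw [Matrix.of_apply]
  induction j using Fin.addCases with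
  | left j =>
    rw [Fin.addCases_left]
    split_ifs
    · exact hG _
    · rw [natDegree_zero]; exact Nat.zero_le _
  | right j =>
    rw [Fin.addCases_right]
    split_ifs
    · exact hD _
    · rw [natDegree_zero]; exact Nat.zero_le _

end Basic

section Exceptional

variable {F : Type} [Field F]

/-- The exceptional values of the derivative. -/
def Zex (D : F[X][X]) : Set F[X] :=
  {z | ¬ IsCoprime (D.map (algebraMap F[X] (RatFunc F)))
    ((GZ D z).map (algebraMap F[X] (RatFunc F)))}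

theorem Zex_card (D : F[X][X])
    (hD : IsCoprime (D.map (algebraMap F[X] (RatFunc F)))
      (derivative (D.map (algebraMap F[X] (RatFunc F))))) :
    (Zex D).Finite ∧ (Zex D).ncard ≤ D.natDegree := by
  classical
  set K := RatFunc F
  set L := AlgebraicClosure K
  set φ := algebraMap F[X] K
  have hD0 : D.map φ ≠ 0 := by
    intro h0
    rw [h0, derivative_zero] at hD
    exact not_isCoprime_zero_zero hD
  have key : ∀ z ∈ Zex D, ∃ ρ : L, aeval ρ (D.map φ) = 0 ∧ aeval ρ ((GZ D z).map φ) = 0 := by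
    intro z hz
    by_contra hcon
    refine hz ((isCoprime_iff_aeval_ne_zero_of_isAlgClosed K L _ _).mpr fun a => ?_)
    by_contra h
    rw [not_or, not_not, not_not] at h
    exact hcon ⟨a, h⟩
  choose! ρ hρ1 hρ2 using key
  have hderiv : ∀ z ∈ Zex D, aeval (ρ z) (derivative (D.map φ)) ≠ 0 := by
    intro z hz
    rcases (isCoprime_iff_aeval_ne_zero_of_isAlgClosed K L _ _).mp hD (ρ z) with h | h
    · exact absurd (hρ1 z hz) h
    · exact h
  have hGZ : ∀ z : F[X], (GZ D z).map φ = (DT D).map φ + C (φ z) * derivative (D.map φ) := by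
    intro z
    unfold GZ
    rw [Polynomial.map_add, Polynomial.map_mul, map_C, derivative_map]
  have hinj : Set.InjOn ρ (Zex D) := by
    intro z hz z' hz' h
    have e1 := hρ2 z hz
    have e2 := hρ2 z' hz'
    rw [hGZ, map_add, map_mul, aeval_C] at e1 e2
    rw [← h] at e2
    have e3 : (algebraMap K L (φ z) - algebraMap K L (φ z')) *
        aeval (ρ z) (derivative (D.map φ)) = 0 := by linear_combination e1 - e2
    rcases mul_eq_zero.mp e3 with h4 | h4
    · have h5 : algebraMap K L (φ z) = algebraMap K L (φ z') := sub_eq_zero.mp h4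
      exact RatFunc.algebraMap_injective F ((algebraMap K L).injective h5)
    · exact absurd h4 (hderiv z hz)
  have hmaps : ρ '' Zex D ⊆ ((D.map φ).aroots L).toFinset := by
    rintro _ ⟨z, hz, rfl⟩
    rw [Finset.mem_coe, Multiset.mem_toFinset, mem_aroots]
    exact ⟨hD0, hρ1 z hz⟩
  have hfin : (ρ '' Zex D).Finite := (Finset.finite_toSet _).subset hmaps
  refine ⟨Set.Finite.of_finite_image hfin hinj, ?_⟩
  rw [← Set.InjOn.ncard_image hinj]
  refine (Set.ncard_le_ncard hmaps (Finset.finite_toSet _)).trans ?_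
  rw [Set.ncard_coe_finset]
  refine (Multiset.toFinset_card_le _).trans ?_
  refine (card_roots' _).trans ?_
  rw [natDegree_map]
  exact natDegree_map_le

end Exceptional

section Kernel

variable {F : Type} [Field F] [Finite F]

theorem exists_pow_of_derivative (p : ℕ) [CharP F p] [hp : Fact p.Prime] (g : F[X])
    (hg : derivative g = 0) : ∃ h : F[X], g = h ^ p := by
  refine ⟨(contract p g).map ((frobeniusEquiv F p).symm : F →+* F), ?_⟩
  rw [← map_frobenius_expand, ← map_expand, Polynomial.map_map]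
  have h1 : (frobenius F p).comp ((frobeniusEquiv F p).symm : F →+* F) = RingHom.id F := by
    ext x
    simp
  rw [h1, Polynomial.map_id, expand_contract p hg hp.out.ne_zero]

theorem eq_zero_of_derivative (p : ℕ) [CharP F p] [hp : Fact p.Prime] (hp3 : 3 ≤ p) (g P : F[X])
    (hP : Irreducible P) (hg : derivative g = 0) (hd : P ∣ g) (n : ℕ) (hn : g.natDegree ≤ n)
    (hl : n < 3 * P.natDegree) : g = 0 := by
  obtain ⟨h, rfl⟩ := exists_pow_of_derivative p g hg
  by_contra h0
  have hh : h ≠ 0 := fun h1 => h0 (by rw [h1, zero_pow hp.out.ne_zero])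
  have h1 : P ∣ h := hP.prime.dvd_of_dvd_pow hd
  have h2 : P.natDegree ≤ h.natDegree := natDegree_le_of_dvd h1 hh
  rw [natDegree_pow] at hn
  have h3 : 3 * P.natDegree ≤ p * h.natDegree := Nat.mul_le_mul hp3 h2
  omega

theorem fib_card (p : ℕ) [CharP F p] [hp : Fact p.Prime] (n : ℕ) (z : F[X])
    (V : Finset F[X]) (hV : ∀ w, w ∈ V ↔ w.natDegree ≤ n) [DecidableEq F[X]]
    (hz : z ∈ V.image derivative) :
    (V.filter (fun w => derivative w = z)).card = Nat.card F ^ (n / p + 1) := by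
  obtain ⟨w₀, hw₀, rfl⟩ := Finset.mem_image.mp hz
  have hW := h95D_finite F (n / p)
  rw [← h95D_ncard F (n / p), Set.ncard_eq_toFinset_card _ hW]
  symm
  have hpos : 0 < p := hp.out.pos
  refine Finset.card_bij (fun h _ => w₀ + expand F p h) ?_ ?_ ?_
  · intro h hh
    have h1 : h.natDegree ≤ n / p := (Set.Finite.mem_toFinset hW).mp hh
    refine Finset.mem_filter.mpr ⟨(hV _).mpr ?_, ?_⟩
    · refine natDegree_add_le_of_degree_le ((hV _).mp hw₀) ?_
      rw [natDegree_expand]
      exact (Nat.mul_le_mul_right p h1).trans (Nat.div_mul_le_self n p)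
    · rw [derivative_add, derivative_expand]
      simp [CharP.cast_eq_zero]
  · intro h _ h' _ e
    exact expand_injective hpos (add_left_cancel e)
  · intro w hw
    obtain ⟨hw1, hw2⟩ := Finset.mem_filter.mp hw
    have hd : derivative (w - w₀) = 0 := by rw [derivative_sub, hw2, sub_self]
    have he := expand_contract p hd hp.out.ne_zero
    refine ⟨contract p (w - w₀), (Set.Finite.mem_toFinset hW).mpr ?_, ?_⟩
    · have h1 : (w - w₀).natDegree ≤ n :=
        (natDegree_sub_le_of_le ((hV _).mp hw1) ((hV _).mp hw₀)).trans (max_self n).le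
      have h2 : (contract p (w - w₀)).natDegree * p = (w - w₀).natDegree := by
        rw [← natDegree_expand, he]
      have : (contract p (w - w₀)).natDegree ≤ n / p := by
        rw [Nat.le_div_iff_mul_le hpos, h2]; exact h1
      exact this
    · rw [he]; ring

end Kernel

section Primes

variable {F : Type} [Field F]

theorem monic_coprime {P Q : F[X]} (hP : P.Monic) (hQ : Q.Monic) (hPi : Irreducible P)
    (hQi : Irreducible Q) (h : P ≠ Q) : IsCoprime P Q := by
  rw [hPi.coprime_iff_not_dvd]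
  intro hd
  exact h (eq_of_monic_of_associated hP hQ (hPi.associated_of_dvd hQi hd))

theorem primes_card (T : Finset F[X]) (R : F[X]) (hR : R ≠ 0)
    (hT : ∀ P ∈ T, P.Monic ∧ Irreducible P ∧ P ∣ R) (m : ℕ) (hm : ∀ P ∈ T, m ≤ P.natDegree) :
    T.card * m ≤ R.natDegree := by
  have h1 : (∏ P ∈ T, P) ∣ R := by
    refine Finset.prod_dvd_of_coprime (s := fun P : F[X] => P) ?_ fun P hP => (hT P hP).2.2
    intro P hP Q hQ hne
    exact monic_coprime (hT P hP).1 (hT Q hQ).1 (hT P hP).2.1 (hT Q hQ).2.1 hne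
  have h2 := natDegree_le_of_dvd h1 hR
  rw [natDegree_prod_of_monic _ _ fun P hP => (hT P hP).1] at h2
  refine le_trans ?_ h2
  rw [← smul_eq_mul]
  exact Finset.card_nsmul_le_sum _ _ _ hm

end Primes

section Fiber

variable {F : Type} [Field F]

theorem roots_card (P : F[X]) (hP : Irreducible P) (D : F[X][X])
    (hD : ∃ i, ¬ P ∣ D.coeff i) (S : Finset F[X]) (hS : ∀ w ∈ S, P ∣ D.eval w)
    (hinj : ∀ w ∈ S, ∀ w' ∈ S, P ∣ w - w' → w = w') : S.card ≤ D.natDegree := by
  classical
  have : Fact (Irreducible P) := ⟨hP⟩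
  have h0 : D.map (AdjoinRoot.mk P) ≠ 0 := by
    obtain ⟨i, hi⟩ := hD
    intro h
    apply hi
    rw [← AdjoinRoot.mk_eq_zero, ← coeff_map, h, coeff_zero]
  have h1 : S.image (AdjoinRoot.mk P) ⊆ (D.map (AdjoinRoot.mk P)).roots.toFinset := by
    intro x hx
    obtain ⟨w, hw, rfl⟩ := Finset.mem_image.mp hx
    rw [Multiset.mem_toFinset, mem_roots h0, IsRoot.def, eval_map_apply,
      AdjoinRoot.mk_eq_zero]
    exact hS w hw
  have h2 : (S.image (AdjoinRoot.mk P)).card = S.card := by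
    refine Finset.card_image_of_injOn ?_
    intro w hw w' hw' h
    refine hinj w hw w' hw' ?_
    rw [← AdjoinRoot.mk_eq_zero, map_sub, sub_eq_zero]
    exact h
  rw [← h2]
  refine (Finset.card_le_card h1).trans ?_
  refine (Multiset.toFinset_card_le _).trans ?_
  exact (card_roots' _).trans natDegree_map_le

theorem exists_res (D : F[X][X]) (hd : 1 ≤ D.natDegree) (C₀ n : ℕ) (hdC : D.natDegree ≤ C₀)
    (hD : ∀ i, (D.coeff i).natDegree ≤ C₀ * (n + 1)) (z : F[X]) (hz : z.natDegree ≤ n)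
    (hzx : z ∉ Zex D) : ∃ R : F[X], R ≠ 0 ∧ R.natDegree ≤ 2 * C₀ * (C₀ + 1) * (n + 1) ∧
      ∀ w P : F[X], P ∣ D.eval w → P ∣ (GZ D z).eval w → P ∣ R := by
  have hco : IsCoprime (D.map (algebraMap F[X] (RatFunc F)))
    ((GZ D z).map (algebraMap F[X] (RatFunc F))) := by
    by_contra h
    exact hzx h
  have hinj : Function.Injective (algebraMap F[X] (RatFunc F)) :=
    RatFunc.algebraMap_injective F
  refine ⟨resultant D (GZ D z), ?_, ?_, ?_⟩
  · intro h0
    have h1 := resultant_ne_zero _ _ hco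
    rw [natDegree_map_eq_of_injective hinj, natDegree_map_eq_of_injective hinj,
      resultant_map_map, h0, map_zero] at h1
    exact h1 rfl
  · have hB : ∀ i, (D.coeff i).natDegree ≤ C₀ * (n + 1) + n := fun i => (hD i).trans (by omega)
    refine (resultant_natDegree_le D (GZ D z) _ _ (C₀ * (n + 1) + n) hB
      (GZ_coeff_natDegree D z _ _ hD hz)).trans ?_
    have h1 : D.natDegree + (GZ D z).natDegree ≤ 2 * C₀ := by
      have := GZ_natDegree D z
      omega
    have h2 : C₀ * (n + 1) + n ≤ (C₀ + 1) * (n + 1) := by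
      rw [add_mul, one_mul]
      omega
    calc (D.natDegree + (GZ D z).natDegree) * (C₀ * (n + 1) + n)
        ≤ (2 * C₀) * ((C₀ + 1) * (n + 1)) := Nat.mul_le_mul h1 h2
      _ = 2 * C₀ * (C₀ + 1) * (n + 1) := by ring
  · intro w P h1 h2
    obtain ⟨p, q, -, -, h3⟩ := exists_mul_add_mul_eq_C_resultant D (GZ D z) le_rfl le_rfl
      (Or.inl (by omega))
    have h4 := congrArg (eval w) h3
    rw [eval_add, eval_mul, eval_mul, eval_C] at h4
    rw [← h4]
    exact dvd_add (h1.mul_right _) (h2.mul_right _)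

/-- The bad values. -/
def Bad (D : F[X][X]) (C₀ n : ℕ) (w : F[X]) : Prop :=
  ∃ P : F[X], P.Monic ∧ Irreducible P ∧ n ≤ 2 * P.natDegree + C₀ ∧ P ^ 2 ∣ D.eval w ∧
    ∃ i, ¬ P ∣ D.coeff i

open Classical in
theorem fib_bad [Finite F] (p : ℕ) [CharP F p] [hp : Fact p.Prime] (hp3 : 3 ≤ p) (D : F[X][X])
    (hd : 1 ≤ D.natDegree) (C₀ n : ℕ) (hdC : D.natDegree ≤ C₀)
    (hD : ∀ i, (D.coeff i).natDegree ≤ C₀ * (n + 1)) (hn : 3 * C₀ < n) (z : F[X])
    (hz : z.natDegree ≤ n) (hzx : z ∉ Zex D) (V : Finset F[X])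
    (hV : ∀ w ∈ V, w.natDegree ≤ n ∧ derivative w = z ∧ Bad D C₀ n w) :
    V.card ≤ 6 * C₀ * (C₀ + 1) * C₀ := by
  obtain ⟨R, hR0, hRd, hR⟩ := exists_res D hd C₀ n hdC hD z hz hzx
  set T : Finset F[X] := (h95D_finite F R.natDegree).toFinset.filter (fun P =>
    P.Monic ∧ Irreducible P ∧ n ≤ 2 * P.natDegree + C₀ ∧ P ∣ R ∧ ∃ i, ¬ P ∣ D.coeff i) with hTd
  have hT : ∀ P ∈ T, P.Monic ∧ Irreducible P ∧ n ≤ 2 * P.natDegree + C₀ ∧ P ∣ R ∧
      ∃ i, ¬ P ∣ D.coeff i := fun P hP => (Finset.mem_filter.mp hP).2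
  have hTc : T.card ≤ 6 * C₀ * (C₀ + 1) := by
    have h1 := primes_card T R hR0 (fun P hP => ⟨(hT P hP).1, (hT P hP).2.1, (hT P hP).2.2.2.1⟩)
      ((n + 3) / 3) (fun P hP => by have := (hT P hP).2.2.1; omega)
    have h2 : n + 1 ≤ 3 * ((n + 3) / 3) := by omega
    have h3 : 0 < (n + 3) / 3 := by omega
    have h4 : T.card * ((n + 3) / 3) ≤ (6 * C₀ * (C₀ + 1)) * ((n + 3) / 3) :=
      calc T.card * ((n + 3) / 3) ≤ 2 * C₀ * (C₀ + 1) * (n + 1) := h1.trans hRd
        _ ≤ 2 * C₀ * (C₀ + 1) * (3 * ((n + 3) / 3)) := Nat.mul_le_mul_left _ h2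
        _ = (6 * C₀ * (C₀ + 1)) * ((n + 3) / 3) := by ring
    exact Nat.le_of_mul_le_mul_right h4 h3
  have hsub : V ⊆ T.biUnion fun P => V.filter (fun w => P ∣ D.eval w) := by
    intro w hw
    obtain ⟨hw1, hw2, P, hPm, hPi, hPn, hPd, hPc⟩ := hV w hw
    have e1 : P ∣ D.eval w := (dvd_pow_self P two_ne_zero).trans hPd
    have e2 : P ∣ (GZ D z).eval w := by rw [← hw2]; exact GZ_eval_dvd D w P hPd
    have e3 : P ∣ R := hR w P e1 e2
    refine Finset.mem_biUnion.mpr ⟨P, Finset.mem_filter.mpr ⟨?_, hPm, hPi, hPn, e3, hPc⟩,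
      Finset.mem_filter.mpr ⟨hw, e1⟩⟩
    exact (Set.Finite.mem_toFinset _).mpr (natDegree_le_of_dvd e3 hR0)
  refine (Finset.card_le_card hsub).trans ?_
  refine (Finset.card_biUnion_le_card_mul _ _ C₀ fun P hP => ?_).trans
    (Nat.mul_le_mul_right _ hTc)
  obtain ⟨hPm, hPi, hPn, -, hPc⟩ := hT P hP
  refine (roots_card P hPi D hPc _ (fun w hw => (Finset.mem_filter.mp hw).2) ?_).trans hdC
  intro w hw w' hw' hdvd
  obtain ⟨w1, w2, -⟩ := hV w (Finset.mem_filter.mp hw).1
  obtain ⟨w1', w2', -⟩ := hV w' (Finset.mem_filter.mp hw').1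
  refine sub_eq_zero.mp (eq_zero_of_derivative p hp3 (w - w') P hPi ?_ hdvd n ?_ ?_)
  · rw [derivative_sub, w2, w2', sub_self]
  · exact (natDegree_sub_le_of_le w1 w1').trans (max_self n).le
  · omega

end Fiber

section Main

theorem char_ge_three {F : Type} [Field F] (h2 : (2 : F) ≠ 0) (p : ℕ) [CharP F p]
    (hp : p.Prime) : 3 ≤ p := by
  have h := hp.two_le
  rcases Nat.lt_or_ge p 3 with h3 | h3
  · exfalso
    have h4 : p = 2 := by omega
    subst h4
    exact h2 (by exact_mod_cast CharP.cast_eq_zero F 2)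
  · exact h3

open Classical in
theorem bad_count {F : Type} [Field F] [Finite F] (h2 : (2 : F) ≠ 0) (p : ℕ) [CharP F p]
    [hp : Fact p.Prime] (D : F[X][X]) (hd : 1 ≤ D.natDegree) (C₀ n : ℕ)
    (hdC : D.natDegree ≤ C₀) (hD : ∀ i, (D.coeff i).natDegree ≤ C₀ * (n + 1))
    (hn : 3 * C₀ < n) (hco : IsCoprime (D.map (algebraMap F[X] (RatFunc F)))
      (derivative (D.map (algebraMap F[X] (RatFunc F))))) :
    {w : F[X] | w.natDegree ≤ n ∧ Bad D C₀ n w}.ncard * Nat.card F ^ (n / p) ≤
      (6 * C₀ * (C₀ + 1) * C₀ + C₀) * Nat.card F ^ (n + 1) := by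
  have hp3 : 3 ≤ p := char_ge_three h2 p hp.out
  have hVf := h95D_finite F n
  set V := hVf.toFinset with hVd
  have hV : ∀ w, w ∈ V ↔ w.natDegree ≤ n := fun w => Set.Finite.mem_toFinset hVf
  have hVc : V.card = Nat.card F ^ (n + 1) := by
    rw [← h95D_ncard F n, Set.ncard_eq_toFinset_card _ hVf]
  set a := Nat.card F ^ (n / p) with ha
  set I := (V.image derivative).card with hI
  have hq : 1 ≤ Nat.card F := Nat.card_pos
  have hfib : ∀ z ∈ V.image derivative,
      (V.filter (fun w => derivative w = z)).card = a * Nat.card F := by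
    intro z hz
    rw [fib_card p n z V hV hz, ha, pow_succ]
  have hIa : a * Nat.card F * I ≤ Nat.card F ^ (n + 1) := by
    rw [← hVc]
    exact Finset.mul_card_image_le_card V _ fun z hz => (hfib z hz).ge
  obtain ⟨hZf, hZc⟩ := Zex_card D hco
  set A := V.filter (fun w => Bad D C₀ n w ∧ derivative w ∈ Zex D) with hAd
  set B := V.filter (fun w => Bad D C₀ n w ∧ derivative w ∉ Zex D) with hBd
  have hAc : A.card ≤ a * Nat.card F * C₀ := by
    refine (Finset.card_le_mul_card_image_of_maps_to (f := derivative) (t := hZf.toFinset)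
      (fun w hw => (Set.Finite.mem_toFinset _).mpr (Finset.mem_filter.mp hw).2.2)
      (a * Nat.card F) fun z _ => ?_).trans ?_
    · by_cases hz : z ∈ V.image derivative
      · rw [← hfib z hz]
        refine Finset.card_le_card fun w hw => ?_
        obtain ⟨h1, h2⟩ := Finset.mem_filter.mp hw
        exact Finset.mem_filter.mpr ⟨(Finset.mem_filter.mp h1).1, h2⟩
      · have : A.filter (fun w => derivative w = z) = ∅ := by
          rw [Finset.filter_eq_empty_iff]
          intro w hw h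
          exact hz (Finset.mem_image.mpr ⟨w, (Finset.mem_filter.mp hw).1, h⟩)
        rw [this, Finset.card_empty]
        exact Nat.zero_le _
    · refine Nat.mul_le_mul_left _ ?_
      rw [← Set.ncard_eq_toFinset_card _ hZf]
      exact hZc.trans hdC
  have hBc : B.card ≤ 6 * C₀ * (C₀ + 1) * C₀ * I := by
    refine Finset.card_le_mul_card_image_of_maps_to (f := derivative) (t := V.image derivative)
      (fun w hw => Finset.mem_image_of_mem _ (Finset.mem_filter.mp hw).1) _ fun z hz => ?_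
    by_cases hzx : z ∈ Zex D
    · have : B.filter (fun w => derivative w = z) = ∅ := by
        rw [Finset.filter_eq_empty_iff]
        intro w hw h
        exact (Finset.mem_filter.mp hw).2.2 (by rw [h]; exact hzx)
      rw [this, Finset.card_empty]
      exact Nat.zero_le _
    · have hzn : z.natDegree ≤ n := by
        obtain ⟨w, hw, rfl⟩ := Finset.mem_image.mp hz
        exact (natDegree_derivative_le w).trans ((Nat.sub_le _ _).trans ((hV w).mp hw))
      refine fib_bad p hp3 D hd C₀ n hdC hD hn z hzn hzx _ fun w hw => ?_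
      obtain ⟨h1, h2⟩ := Finset.mem_filter.mp hw
      obtain ⟨h3, h4, -⟩ := Finset.mem_filter.mp h1
      exact ⟨(hV w).mp h3, h2, h4⟩
  have hS : {w : F[X] | w.natDegree ≤ n ∧ Bad D C₀ n w} ⊆ ((A ∪ B : Finset F[X]) : Set F[X]) := by
    intro w hw
    rw [Finset.mem_coe, Finset.mem_union]
    by_cases hz : derivative w ∈ Zex D
    · exact Or.inl (Finset.mem_filter.mpr ⟨(hV w).mpr hw.1, hw.2, hz⟩)
    · exact Or.inr (Finset.mem_filter.mpr ⟨(hV w).mpr hw.1, hw.2, hz⟩)
  have hSc : {w : F[X] | w.natDegree ≤ n ∧ Bad D C₀ n w}.ncard ≤ A.card + B.card := by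
    refine (Set.ncard_le_ncard hS (Finset.finite_toSet _)).trans ?_
    rw [Set.ncard_coe_finset]
    exact Finset.card_union_le _ _
  have ha2 : a * a * Nat.card F ≤ Nat.card F ^ (n + 1) := by
    rw [ha, ← pow_add, ← pow_succ]
    refine Nat.pow_le_pow_right hq ?_
    have : n / p ≤ n / 3 := Nat.div_le_div_left hp3 (by norm_num)
    omega
  have hIa2 : I * a ≤ Nat.card F ^ (n + 1) := by
    refine le_trans ?_ hIa
    calc I * a = a * 1 * I := by ring
      _ ≤ a * Nat.card F * I := Nat.mul_le_mul_right _ (Nat.mul_le_mul_left _ hq)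
  calc {w : F[X] | w.natDegree ≤ n ∧ Bad D C₀ n w}.ncard * a
      ≤ (a * Nat.card F * C₀ + 6 * C₀ * (C₀ + 1) * C₀ * I) * a :=
        Nat.mul_le_mul_right _ (hSc.trans (Nat.add_le_add hAc hBc))
    _ = C₀ * (a * a * Nat.card F) + 6 * C₀ * (C₀ + 1) * C₀ * (I * a) := by ring
    _ ≤ C₀ * Nat.card F ^ (n + 1) + 6 * C₀ * (C₀ + 1) * C₀ * Nat.card F ^ (n + 1) :=
        Nat.add_le_add (Nat.mul_le_mul_left _ ha2) (Nat.mul_le_mul_left _ hIa2)
    _ = (6 * C₀ * (C₀ + 1) * C₀ + C₀) * Nat.card F ^ (n + 1) := by ring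

theorem plm_thm : Pool.AV3.PLMStmt := by
  intro F _ _ h2 C₀ ε hε
  obtain ⟨p, hpc⟩ := CharP.exists F
  have hp : Fact p.Prime := ⟨CharP.char_is_prime F p⟩
  have hq : 2 ≤ Nat.card F := Finite.one_lt_card
  obtain ⟨m, hm⟩ := pow_unbounded_of_one_lt
    (((6 * C₀ * (C₀ + 1) * C₀ + C₀ : ℕ) : ℝ) / ε) (one_lt_two (α := ℝ))
  refine ⟨p * m + 3 * C₀ + 1, fun n hn D hdC hD hco => ?_⟩
  rcases Nat.eq_zero_or_pos D.natDegree with h0 | hd
  · have hD0 := eq_C_of_natDegree_eq_zero h0
    have he : {w : F[X] | w.natDegree ≤ n ∧ ∃ P : F[X], P.Monic ∧ Irreducible P ∧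
        n ≤ 2 * P.natDegree + C₀ ∧ P ^ 2 ∣ D.eval w ∧ ∃ i, ¬ P ∣ D.coeff i} = ∅ := by
      rw [Set.eq_empty_iff_forall_notMem]
      rintro w ⟨-, P, -, -, -, h1, i, hi⟩
      rw [hD0, eval_C] at h1
      apply hi
      rw [hD0, coeff_C]
      split_ifs
      · exact (dvd_pow_self P two_ne_zero).trans h1
      · exact dvd_zero _
    rw [he, Set.ncard_empty]
    simp only [Nat.cast_zero]
    positivity
  · have hb := bad_count h2 p D hd C₀ n hdC hD (by omega) hco
    have hmn : m ≤ n / p := by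
      rw [Nat.le_div_iff_mul_le hp.out.pos, mul_comm]
      omega
    have ha : (2 : ℝ) ^ m ≤ (Nat.card F : ℝ) ^ (n / p) :=
      calc (2 : ℝ) ^ m ≤ (Nat.card F : ℝ) ^ m :=
            pow_le_pow_left₀ (by norm_num) (by exact_mod_cast hq) _
        _ ≤ (Nat.card F : ℝ) ^ (n / p) :=
            pow_le_pow_right₀ (by exact_mod_cast (by omega : 1 ≤ Nat.card F)) hmn
    have hpos : (0 : ℝ) < (Nat.card F : ℝ) ^ (n / p) := lt_of_lt_of_le (by positivity) ha
    have hK : ((6 * C₀ * (C₀ + 1) * C₀ + C₀ : ℕ) : ℝ) ≤ ε * (Nat.card F : ℝ) ^ (n / p) := by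
      rw [div_lt_iff₀ hε] at hm
      calc ((6 * C₀ * (C₀ + 1) * C₀ + C₀ : ℕ) : ℝ) ≤ 2 ^ m * ε := hm.le
        _ ≤ (Nat.card F : ℝ) ^ (n / p) * ε := mul_le_mul_of_nonneg_right ha hε.le
        _ = ε * (Nat.card F : ℝ) ^ (n / p) := mul_comm _ _
    have hb' : ({w : F[X] | w.natDegree ≤ n ∧ Bad D C₀ n w}.ncard : ℝ) *
        (Nat.card F : ℝ) ^ (n / p) ≤
        ((6 * C₀ * (C₀ + 1) * C₀ + C₀ : ℕ) : ℝ) * (Nat.card F : ℝ) ^ (n + 1) := by
      exact_mod_cast hb
    have hfin : ({w : F[X] | w.natDegree ≤ n ∧ Bad D C₀ n w}.ncard : ℝ) ≤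
        ε * (Nat.card F : ℝ) ^ (n + 1) := by
      refine le_of_mul_le_mul_right (hb'.trans ?_) hpos
      calc ((6 * C₀ * (C₀ + 1) * C₀ + C₀ : ℕ) : ℝ) * (Nat.card F : ℝ) ^ (n + 1)
          ≤ (ε * (Nat.card F : ℝ) ^ (n / p)) * (Nat.card F : ℝ) ^ (n + 1) :=
            mul_le_mul_of_nonneg_right hK (by positivity)
        _ = ε * (Nat.card F : ℝ) ^ (n + 1) * (Nat.card F : ℝ) ^ (n / p) := by ring
    exact hfin

end Main

end Pool.Agent.H55.AV3C
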