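import Pool.Agent.H8.AV3.Stmts7
import Pool.Agent.H95.AVR.CNF

/-!
# AV3, stage 3, module SUE: summation over the curves, lower bound
-/

set_option autoImplicit false

namespace Pool.Agent.H55.AV3C

open Polynomial Matrix Pool.AVR Pool.AV3

theorem wb_nonneg_sue (hLVA : Pool.AV3.LVAStmt) {F : Type} [Field F] [Finite F] (h2 : (2 : F) ≠ 0)
    {P : F[X]} (hm : P.Monic) (hi : Irreducible P) (N : ℕ) (c : Fin 10 → F[X]) :
    0 ≤ wb P N c := by
  have h1 := (hLVA F h2 P hm hi).1 1
  rw [pow_one] at h1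
  have hq : 1 ≤ Nat.card F := Nat.card_pos
  have h3 : 1 ≤ Nat.card (AdjoinRoot P) := by
    rw [h1]; exact Nat.one_le_pow _ _ hq
  have h4 : (1 : ℝ) ≤ (Nat.card (AdjoinRoot P) : ℝ) := by exact_mod_cast h3
  unfold wb
  refine div_nonneg (Nat.cast_nonneg _) ?_
  unfold Bx
  split_ifs
  · linarith
  · unfold Bw
    refine mul_nonneg (by linarith) ?_
    positivity

theorem sh_inj_sue {F : Type} [Field F] (h2 : (2 : F) ≠ 0) (f : F[X] × F[X] × F[X])
    (hf : (3 : F) ≠ 0 ∨ f.1 ≠ 0) {p p' : F[X]} (h : sh p f = sh p' f) : p = p' := by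
  have e1 := congrArg (fun x : F[X] × F[X] × F[X] => x.1) h
  have e2 := congrArg (fun x : F[X] × F[X] × F[X] => x.2.1) h
  simp only [sh] at e1 e2
  by_cases h3 : (3 : F) = 0
  · have hf1 : f.1 ≠ 0 := by
      rcases hf with h | h
      · exact absurd h3 h
      · exact h
    have h3' : (3 : F[X]) = 0 := by
      have : (3 : F[X]) = C (3 : F) := (map_ofNat C 3).symm
      rw [this, h3, C_0]
    have h2' : (2 : F[X]) ≠ 0 := by
      have : (2 : F[X]) = C (2 : F) := (map_ofNat C 2).symm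
      rw [this]; exact C_ne_zero.mpr h2
    rw [h3'] at e2
    have : (2 * f.1) * p = (2 * f.1) * p' := by linear_combination e2
    exact mul_left_cancel₀ (mul_ne_zero h2' hf1) this
  · have h3' : (3 : F[X]) ≠ 0 := by
      have : (3 : F[X]) = C (3 : F) := (map_ofNat C 3).symm
      rw [this]; exact C_ne_zero.mpr h3
    have : 3 * p = 3 * p' := by linear_combination e1
    exact mul_left_cancel₀ h3' this

theorem sh_fam_sue {F : Type} [Field F] {n : ℕ} {f : F[X] × F[X] × F[X]} (hf : f ∈ Fam F n)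
    {p : F[X]} (hp : p.natDegree ≤ 2 * n) : sh p f ∈ Fam F n := by
  obtain ⟨h1, h2, h3⟩ := hf
  have hp2 : (p ^ 2).natDegree ≤ 4 * n := by
    refine natDegree_pow_le.trans ?_; omega
  have hp3 : (p ^ 3).natDegree ≤ 6 * n := by
    refine natDegree_pow_le.trans ?_; omega
  have k2 : (2 : F[X]).natDegree = 0 := natDegree_ofNat 2
  have k3 : (3 : F[X]).natDegree = 0 := natDegree_ofNat 3
  refine ⟨?_, ?_, ?_⟩
  · simp only [sh]
    refine (natDegree_add_le_of_degree_le h1 ?_)
    refine natDegree_mul_le.trans ?_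
    omega
  · simp only [sh]
    refine natDegree_add_le_of_degree_le (natDegree_add_le_of_degree_le h2 ?_) ?_
    · refine natDegree_mul_le.trans ?_
      have : (2 * f.1).natDegree ≤ 2 * n := by
        refine natDegree_mul_le.trans ?_; omega
      omega
    · refine natDegree_mul_le.trans ?_; omega
  · simp only [sh]
    refine natDegree_add_le_of_degree_le (natDegree_add_le_of_degree_le
      (natDegree_add_le_of_degree_le h3 ?_) ?_) hp3
    · refine natDegree_mul_le.trans ?_; omega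
    · refine natDegree_mul_le.trans ?_; omega

theorem sh_gdf_sue (hJIN : Pool.AV3.JINStmt) {F : Type} [Field F] (h2 : (2 : F) ≠ 0)
    {n α β N : ℕ} {S : Finset F[X]} {c : Fin 10 → F[X]}
    (hc : c ∈ GdC n α β N S) {p : F[X]} (hp : p.natDegree ≤ 2 * n) :
    sh (-p) (Jc (hf F) c) ∈ GdF n N S ∧ c ∈ VJ n (dv α β) (sh (-p) (Jc (hf F) c)) := by
  obtain ⟨hV, hPS, hX, hPn, h3⟩ := hc
  obtain ⟨J1, J2⟩ := hJIN F h2 n
  obtain ⟨j1, j2⟩ := J1 α β c hV
  have hfam : sh (-p) (Jc (hf F) c) ∈ Fam F n := sh_fam_sue j1 (by rw [natDegree_neg]; exact hp)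
  have hsh : sh p (sh (-p) (Jc (hf F) c)) = Jc (hf F) c := by
    rw [sh_sh, add_neg_cancel, sh_zero]
  have hfin := (J2 p (sh (-p) (Jc (hf F) c)) hfam (by rw [hsh]; exact j1)).2
  rw [hsh] at hfin
  have hd : dsc (AVS.finf n (sh (-p) (Jc (hf F) c))) =
      dsc (Jc (hf F) (cinf n (dv α β) c)) := by
    rw [j2, hfin, dsc_sh]
  refine ⟨⟨⟨⟨hfam, ?_⟩, ?_⟩, ?_, ?_, ?_⟩, hV, p, hsh.symm⟩
  · intro h0
    have h0' : dsc (Jc (hf F) c) = 0 := by
      rw [← dsc_sh (-p)]; exact h0
    by_cases hXS : (X : F[X]) ∈ S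
    · exact hPS X hXS (by rw [h0']; exact dvd_zero _)
    · exact hPn X monic_X irreducible_X hXS (by rw [h0']; exact dvd_zero _)
  · rcases h3 with h3 | h3
    · exact Or.inl h3
    · by_cases h33 : (3 : F) = 0
      · refine Or.inr ?_
        have h3' : (3 : F[X]) = 0 := by
          have : (3 : F[X]) = C (3 : F) := (map_ofNat C 3).symm
          rw [this, h33, C_0]
        simp only [sh]
        rw [h3', zero_mul, add_zero]
        exact h3
      · exact Or.inl h33
  · intro P hP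
    rw [dsc_sh]
    exact hPS P hP
  · rw [hd]; exact hX
  · intro P hm hi hP
    rw [dsc_sh]
    exact hPn P hm hi hP

open Classical in
theorem sue_thm (hJIN : Pool.AV3.JINStmt) (hCNV : Pool.AV3.CNVStmt) (hLVA : Pool.AV3.LVAStmt) :
    Pool.AV3.SUEStmt := by
  intro F _ _ h2 n α β N S hα hβ hS
  have hFf : (Fam F n).Finite := by
    rw [h95_fam]
    exact (h95D_finite F _).prod ((h95D_finite F _).prod (h95D_finite F _))
  have hTf : (GdF (F := F) n N S).Finite := hFf.subset fun f hf => hf.1.1.1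
  have hVf : (Vd n (dv α β) : Set (Fin 10 → F[X])).Finite := (hCNV F n α β hα hβ).1
  have hGf : (GdC n α β N S : Set (Fin 10 → F[X])).Finite := hVf.subset fun c hc => hc.1
  have hVJf : ∀ f, (VJ n (dv α β) f : Set (Fin 10 → F[X])).Finite := fun f =>
    hVf.subset fun c hc => hc.1
  have hW : ∀ c : Fin 10 → F[X], 0 ≤ WB3 n α β S N c := by
    intro c
    unfold WB3
    refine mul_nonneg (Finset.prod_nonneg fun P hP =>
      wb_nonneg_sue hLVA h2 (hS P hP).1 (hS P hP).2 N c) ?_
    exact wb_nonneg_sue hLVA h2 monic_X irreducible_X N _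
  have e1 : ∀ f ∈ GdF (F := F) n N S, ∑ᶠ c ∈ VJ n (dv α β) f, WB3 n α β S N c =
      ∑ c ∈ hVf.toFinset, if c ∈ VJ n (dv α β) f then WB3 n α β S N c else 0 := by
    intro f _
    rw [finsum_mem_eq_finite_toFinset_sum _ (hVJf f), ← Finset.sum_filter]
    refine Finset.sum_congr ?_ fun _ _ => rfl
    ext c
    rw [Finset.mem_filter, Set.Finite.mem_toFinset, Set.Finite.mem_toFinset]
    exact ⟨fun h => ⟨h.1, h⟩, fun h => h.2⟩
  rw [finsum_mem_congr rfl e1, finsum_mem_eq_finite_toFinset_sum _ hTf,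
    finsum_mem_eq_finite_toFinset_sum _ hGf, Finset.sum_comm, Finset.mul_sum]
  have hsub : hGf.toFinset ⊆ hVf.toFinset := by
    intro c hc
    rw [Set.Finite.mem_toFinset] at hc ⊢
    exact hc.1
  refine le_trans ?_ (Finset.sum_le_sum_of_subset_of_nonneg hsub fun c _ _ => ?_)
  · refine Finset.sum_le_sum fun c hc => ?_
    have hcG : c ∈ GdC n α β N S := (Set.Finite.mem_toFinset _).mp hc
    rw [← Finset.sum_filter, Finset.sum_const, nsmul_eq_mul]
    refine mul_le_mul_of_nonneg_right ?_ (hW c)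
    have hD := h95D_finite F (2 * n)
    have hsub2 : hD.toFinset.image (fun p => sh (-p) (Jc (hf F) c)) ⊆
        hTf.toFinset.filter (fun f => c ∈ VJ n (dv α β) f) := by
      intro f hfm
      obtain ⟨p, hp, rfl⟩ := Finset.mem_image.mp hfm
      have hp2 : p ∈ H95D F (2 * n) := (Set.Finite.mem_toFinset _).mp hp
      have hp3 : p.natDegree ≤ 2 * n := hp2
      obtain ⟨g1, g2⟩ := sh_gdf_sue hJIN h2 hcG hp3
      exact Finset.mem_filter.mpr ⟨(Set.Finite.mem_toFinset _).mpr g1, g2⟩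
    have hinj : Function.Injective (fun p : F[X] => sh (-p) (Jc (hf F) c)) := by
      intro p p' h
      exact neg_injective (sh_inj_sue h2 _ hcG.2.2.2.2 h)
    have h3 : Nat.card F ^ (2 * n + 1) ≤
        (hTf.toFinset.filter (fun f => c ∈ VJ n (dv α β) f)).card := by
      refine le_trans ?_ (Finset.card_le_card hsub2)
      rw [Finset.card_image_of_injective _ hinj, ← h95D_ncard F (2 * n),
        Set.ncard_eq_toFinset_card _ hD]
    exact_mod_cast h3
  · refine Finset.sum_nonneg fun f _ => ?_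
    split_ifs
    · exact hW c
    · exact le_refl _

end Pool.Agent.H55.AV3C
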